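import Pool.Agent.V11328.MX.Meas

/-!
MP_2489e7_pr.  The moment exponent of a finitely supported, strongly irreducible and proximal
probability measure on `GL(2,ℝ)` can fail to be real-analytic at two points.
-/

namespace Pool.Agent.Results.MP_2489e7_pr.TwoTransitions

open V11328.MX MeasureTheory Filter Topology Set

theorem kk_const (x y : ℝ) (hx1 : -3 ≤ x) (hx2 : x ≤ -2) (hy1 : -3 ≤ y) (hy2 : y ≤ -2) :
    kk x = kk y := le_antisymm (kk_min x y hx1 hx2) (kk_min y x hy1 hy2)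

theorem left : ∃ x ∈ Icc (-20 : ℝ) (-3), ¬ AnalyticAt ℝ kk x := by
  by_contra hcon
  push Not at hcon
  have h1 : AnalyticOnNhd ℝ kk (Icc (-20 : ℝ) (-3)) := fun x hx => hcon x hx
  have h2 : ∃ᶠ z in 𝓝[≠] (-3 : ℝ), kk z = kk (-3) := by
    have h3 : ∀ᶠ z in 𝓝[>] (-3 : ℝ), kk z = kk (-3) := by
      have : Ioo (-3 : ℝ) (-2) ∈ 𝓝[>] (-3 : ℝ) := Ioo_mem_nhdsGT (by norm_num)
      filter_upwards [this] with z hz
      exact kk_const _ _ hz.1.le hz.2.le (by norm_num) (by norm_num)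
    exact h3.frequently.filter_mono (nhdsWithin_mono _ fun z hz => ne_of_gt hz)
  have h4 := h1.eqOn_of_preconnected_of_frequently_eq
    (g := fun _ => kk (-3)) analyticOnNhd_const (isPreconnected_Icc)
    (show (-3 : ℝ) ∈ Icc (-20 : ℝ) (-3) by constructor <;> norm_num) h2
  have h5 := h4 (show (-20 : ℝ) ∈ Icc (-20 : ℝ) (-3) by constructor <;> norm_num)
  simp only at h5
  have h6 := kk_neg_twenty
  have h7 := kk_neg_one
  have h8 := kk_min (-3) (-1) (by norm_num) (by norm_num)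
  linarith

theorem right : ∃ x ∈ Icc (-2 : ℝ) 0, ¬ AnalyticAt ℝ kk x := by
  by_contra hcon
  push Not at hcon
  have h1 : AnalyticOnNhd ℝ kk (Icc (-2 : ℝ) 0) := fun x hx => hcon x hx
  have h2 : ∃ᶠ z in 𝓝[≠] (-2 : ℝ), kk z = kk (-2) := by
    have h3 : ∀ᶠ z in 𝓝[<] (-2 : ℝ), kk z = kk (-2) := by
      have : Ioo (-3 : ℝ) (-2) ∈ 𝓝[<] (-2 : ℝ) := Ioo_mem_nhdsLT (by norm_num)
      filter_upwards [this] with z hz
      exact kk_const _ _ hz.1.le hz.2.le (by norm_num) (by norm_num)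
    exact h3.frequently.filter_mono (nhdsWithin_mono _ fun z hz => ne_of_lt hz)
  have h4 := h1.eqOn_of_preconnected_of_frequently_eq
    (g := fun _ => kk (-2)) analyticOnNhd_const (isPreconnected_Icc)
    (show (-2 : ℝ) ∈ Icc (-2 : ℝ) 0 by constructor <;> norm_num) h2
  have h5 := h4 (show (0 : ℝ) ∈ Icc (-2 : ℝ) 0 by constructor <;> norm_num)
  simp only at h5
  have h6 := kk_zero
  have h7 := kk_neg_one
  have h8 := kk_min (-2) (-1) (by norm_num) (by norm_num)
  linarith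

/-- a compactly supported probability measure which is fully strongly irreducible and fully
proximal -/
def Admissible {d : ℕ} (μ : Measure (GL (Fin d) ℝ)) : Prop :=
  IsProbabilityMeasure μ ∧ IsCompact μ.support ∧ Fully μ

/-- `k` is real-analytic off a set with at most `m` elements -/
def AnalyticOff (k : ℝ → ℝ) (m : ℕ) : Prop :=
  ∃ F : Finset ℝ, F.card ≤ m ∧ ∀ t : ℝ, t ∉ F → AnalyticAt ℝ k t

/-- the statement of Q1 -/
def Q1 : Prop :=
  ∀ d : ℕ, 2 ≤ d → ∀ μ : Measure (GL (Fin d) ℝ), Admissible μ →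
    ∀ k : ℝ → ℝ, IsMomentExponent μ k → AnalyticOff k (d - 1)

/-- `k` is non-analytic at some point of `[-20,-3]` and at some point of `[-2,0]` -/
def TwoSingularities (k : ℝ → ℝ) : Prop :=
  (∃ x ∈ Icc (-20 : ℝ) (-3), ¬ AnalyticAt ℝ k x) ∧ (∃ y ∈ Icc (-2 : ℝ) 0, ¬ AnalyticAt ℝ k y)

/-- First part: the negation of the conjecture.  Second part: an explicit form, a measure on
`GL(2,ℝ)` whose moment exponent has a point of non-analyticity in `[-20,-3]` and another one in
`[-2,0]`. -/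
theorem result :
    ¬ Q1 ∧ ∃ μ : Measure (GL (Fin 2) ℝ), Admissible μ ∧
      ∃ k : ℝ → ℝ, IsMomentExponent μ k ∧ TwoSingularities k := by
  refine ⟨?_, mu, ⟨inferInstance, isCompact_support, fully⟩, kk, isMomentExponent, left, right⟩
  intro h
  obtain ⟨F, hF, hk⟩ := h 2 le_rfl mu ⟨inferInstance, isCompact_support, fully⟩ kk isMomentExponent
  obtain ⟨x, hx, hx'⟩ := left
  obtain ⟨y, hy, hy'⟩ := right
  have h1 : x ∈ F := by
    by_contra hc; exact hx' (hk x hc)
  have h2 : y ∈ F := by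
    by_contra hc; exact hy' (hk y hc)
  have h3 := Finset.card_le_one.1 hF x h1 y h2
  have h4 := hx.2
  have h5 := hy.1
  linarith

end Pool.Agent.Results.MP_2489e7_pr.TwoTransitions
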